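import Pool.Agent.Helper81.RR.Mach
import Pool.Agent.Helper92.RE.Sim

/-!
# Programs of random access machines as machines with reading heads: the computation
-/

set_option autoImplicit false

namespace Pool.Agent.Helper81.RR

open Pool.Agent.Helper65.LinSpace Pool.Agent.Helper78.Mpc Pool.Agent.Helper28.Ram
open Pool.Agent.Helper65.OH (letW)
open Pool.Agent.Helper65.BR (Reader)
open Pool.Agent.Helper81.RP (Ins lett step AcceptsAt conf conf_succ wd wf num_wd wd_num wf_eq
  linComp_wf length_wd ls_pair hd tl ls_hd ls_tl hd_eq tl_eq a0 a1 dst npc uu ls_a1 ls_dst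
  ls_npc selF selF_eq ls_selF isA accF accF_le accF_eq_one ls_accF bd pair_lt wd_one head_wd a0_le
  cst cst_le)
open Pool.Agent.Helper92.RE

/-! ### The memory -/

/-- The memory of the machine. The registers with small numbers are changed only by `store`. -/
def mem (P : List Ins) (x y : List Bool) : ℕ → ℕ → ℕ
  | 0 => fun _ => 0
  | k + 1 => if isSt P[(conf P x y k).1]? = 0 then mem P x y k else
      Function.update (mem P x y k) (uu P (conf P x y k)) (vvL P x y (conf P x y k))

theorem isSt_ne {o : Option Ins} (h : isSt o ≠ 0) : ∃ i j, o = some (.store i j) := by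
  rcases o with _ | o
  · exact absurd rfl h
  · cases o <;> first | exact absurd rfl h | exact ⟨_, _, rfl⟩

theorem dst_le {P : List Ins} {pc : ℕ} (u : ℕ) (h : isSt P[pc]? = 0) : dst P[pc]? u ≤ bd P := by
  unfold bd
  rcases ho : P[pc]? with _ | o
  · exact Nat.zero_le _
  · have h1 := cst_le ho
    rw [ho] at h
    cases o <;> simp only [dst, cst, isSt] at h h1 ⊢ <;> omega

theorem a1_le' {P : List Ins} {pc u : ℕ} (h : bd P < a1 P[pc]? u) :
    (∃ i j, P[pc]? = some (.load i j)) ∧ a1 P[pc]? u = u := by
  unfold bd at h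
  rcases ho : P[pc]? with _ | o
  · rw [ho] at h
    exact absurd h (Nat.not_lt_zero _)
  · have h1 := cst_le ho
    rw [ho] at h
    cases o <;> simp only [a1, cst] at h h1 ⊢ <;> first | omega | exact ⟨⟨_, _, rfl⟩, trivial⟩

theorem mem_eq (P : List Ins) (x y : List Bool) (k : ℕ) {j : ℕ} (hj : bd P < j) :
    mem P x y k j = (conf P x y k).2 j := by
  induction k with
  | zero => rfl
  | succ k ih =>
    rw [conf_succ, step_eqL]
    show (if isSt P[(conf P x y k).1]? = 0 then mem P x y k else
      Function.update (mem P x y k) (uu P (conf P x y k)) (vvL P x y (conf P x y k))) j =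
      Function.update (conf P x y k).2 (dst P[(conf P x y k).1]? (uu P (conf P x y k)))
        (valL P[(conf P x y k).1]? (uu P (conf P x y k)) (vvL P x y (conf P x y k))) j
    by_cases h : isSt P[(conf P x y k).1]? = 0
    · rw [if_pos h, ih, Function.update_of_ne]
      have := dst_le (uu P (conf P x y k)) h
      omega
    · rw [if_neg h]
      obtain ⟨a, b, hab⟩ := isSt_ne h
      have e1 : dst P[(conf P x y k).1]? (uu P (conf P x y k)) = uu P (conf P x y k) := by
        rw [hab]
        rfl
      have e2 : valL P[(conf P x y k).1]? (uu P (conf P x y k)) (vvL P x y (conf P x y k)) =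
          vvL P x y (conf P x y k) := by
        rw [hab]
        rfl
      rw [e1, e2]
      by_cases hju : j = uu P (conf P x y k)
      · rw [hju, Function.update_self, Function.update_self]
      · rw [Function.update_of_ne hju, Function.update_of_ne hju, ih]

/-- The value which is written by `store` is in a register after the step. -/
theorem vvL_lt {P : List Ins} {x y : List Bool} {k s : ℕ}
    (h : ∀ i, (conf P x y (k + 1)).2 i < 2 ^ s) (h0 : isSt P[(conf P x y k).1]? ≠ 0) :
    vvL P x y (conf P x y k) < 2 ^ s := by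
  have h1 := h (uu P (conf P x y k))
  obtain ⟨a, b, hab⟩ := isSt_ne h0
  rw [conf_succ, step_eqL] at h1
  have e1 : dst P[(conf P x y k).1]? (uu P (conf P x y k)) = uu P (conf P x y k) := by
    rw [hab]
    rfl
  have e2 : valL P[(conf P x y k).1]? (uu P (conf P x y k)) (vvL P x y (conf P x y k)) =
      vvL P x y (conf P x y k) := by
    rw [hab]
    rfl
  rw [e1, e2] at h1
  dsimp only at h1
  rwa [Function.update_self] at h1

theorem mem_lt {P : List Ins} {x y : List Bool} {t s : ℕ}
    (h : ∀ k ≤ t, ∀ i, (conf P x y k).2 i < 2 ^ s) {k : ℕ} (hk : k ≤ t) (j : ℕ) :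
    mem P x y k j < 2 ^ s := by
  induction k with
  | zero => exact Nat.two_pow_pos _
  | succ k ih =>
    show (if isSt P[(conf P x y k).1]? = 0 then mem P x y k else
      Function.update (mem P x y k) (uu P (conf P x y k)) (vvL P x y (conf P x y k))) j < 2 ^ s
    by_cases h0 : isSt P[(conf P x y k).1]? = 0
    · rw [if_pos h0]
      exact ih (by omega)
    · rw [if_neg h0]
      by_cases hju : j = uu P (conf P x y k)
      · rw [hju, Function.update_self]
        exact vvL_lt (h (k + 1) hk) h0
      · rw [Function.update_of_ne hju]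
        exact ih (by omega)

theorem ld_eq (P : List Ins) (c : ℕ × (ℕ → ℕ)) :
    ld P c = if isL P[c.1]? = 0 then none else some (uu P c) := by
  unfold ld uu
  rcases P[c.1]? with _ | o
  · rfl
  · cases o <;> rfl

theorem cursor_succ (P : List Ins) (x y : List Bool) (i k : ℕ) :
    cursor P x y i (k + 1) = if isL P[(conf P x y k).1]? ≠ 0 ∧ (conf P x y k).1 = i then
      uu P (conf P x y k) else cursor P x y i k := by
  show (match ld P (conf P x y k) with
    | some z => if (conf P x y k).1 = i then z else cursor P x y i k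
    | none => cursor P x y i k) = _
  rw [ld_eq]
  by_cases h : isL P[(conf P x y k).1]? = 0
  · rw [if_pos h, if_neg fun h1 => h1.1 h]
  · rw [if_neg h]
    show (if (conf P x y k).1 = i then uu P (conf P x y k) else cursor P x y i k) = _
    by_cases h2 : (conf P x y k).1 = i
    · rw [if_pos h2, if_pos ⟨h, h2⟩]
    · rw [if_neg h2, if_neg fun h1 => h2 h1.2]

/-! ### One step of the machine -/

/-- The memory with the contents `M` of the registers. -/
noncomputable def mw (d : ℕ) (M : ℕ → ℕ) (_ : List Bool) (z : ℕ) : List Bool :=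
  wd (tup d (fun j => M (z * d + j)) + 1)

section

variable (D : LD) (d : ℕ) (P : List Ins)

theorem arr_eq (u : List Bool) : (mach D d P).arr u = [] := by
  have h : (mach D d P).arr u = wd 1 := wf_eq (F := fun _ => 1) (w := u) rfl Nat.one_pos
  rw [h, wd_one]

theorem pos_wd {S : ℕ} (hS : 0 < S) (i : Fin P.length) :
    (mach D d P).pos (sd (i : ℕ).bits ++ wd S) = (posG d P i S).bits := by
  have h : (mach D d P).pos (sd (i : ℕ).bits ++ wd S) = wd (bitsN (posG d P i S)) := by
    refine wf_eq ?_ (by rw [bitsN_eq]; exact num_pos _)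
    unfold posF
    rw [hd_eq, tl_eq, ← bitsN_eq, bvN_bitsN, num_wd hS]
  rw [h, bitsN_eq, wd_num]

theorem cell_wd {S : ℕ} (hS : 0 < S) (i : Fin P.length) :
    (mach D d P).cell (wd S) i = ([], posG d P i S) := by
  unfold Reader.cell
  rw [pos_wd D d P hS, Pool.Agent.Helper31.TMS.bval_bits, arr_eq]

theorem addr_wd {S a : ℕ} (hS : 0 < S) (ha : addrF D P S = bitsN a) :
    (mach D d P).addr (wd S) = a.bits := by
  have h : (mach D d P).addr (wd S) = wd (bitsN a) := by
    refine wf_eq ?_ (by rw [bitsN_eq]; exact num_pos _)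
    rw [num_wd hS, ha]
  rw [h, bitsN_eq, wd_num]

/-- The code of the part of the word which is read. -/
noncomputable def zz (w y : List Bool) (a S : ℕ) (M : ℕ → ℕ) : ℕ :=
  num (letW w[a]? ++ (letW y[a]? ++
    (List.finRange P.length).flatMap fun i : Fin P.length => sd (mw d M [] (posG d P i S))))

theorem zz_w (w y : List Bool) (a S : ℕ) (M : ℕ → ℕ) :
    l3 (zz d P w y a S M % 4) = lett w[a]? := l3_letW _ _

theorem zz_y (w y : List Bool) (a S : ℕ) (M : ℕ → ℕ) :
    l3 (zz d P w y a S M / 4 % 4) = lett y[a]? := by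
  unfold zz
  rw [div_letW, l3_letW]

theorem zz_blk (w y : List Bool) (a S : ℕ) (M : ℕ → ℕ) (i : Fin P.length) :
    blkV P.length (zz d P w y a S M / 16) i - 1 =
      tup d fun j => M (posG d P i S * d + j) := by
  have h : blkV P.length (zz d P w y a S M / 16) i = num (mw d M [] (posG d P i S)) := by
    unfold zz
    rw [show (16 : ℕ) = 4 * 4 by norm_num, ← Nat.div_div_eq_div_mul, div_letW, div_letW]
    exact blkV_eq (fun i : Fin P.length => mw d M [] (posG d P i S)) i
  rw [h]
  unfold mw
  rw [num_wd (Nat.succ_pos _), Nat.succ_sub_one]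

theorem step_mach {w y : List Bool} {S a S' : ℕ} (hS : 0 < S) (ha : addrF D P S = bitsN a)
    {M M' : ℕ → ℕ} (hS' : 0 < S')
    (h1 : ∀ x, hd x = S → tl x = zz d P w y a S M → nextF D d P x = S')
    (h2 : ∀ z, wrG d S' z (tup d (fun j => M (z * d + j)) + 1) =
      tup d (fun j => M' (z * d + j)) + 1) :
    (mach D d P).step w y (wd S, mw d M) = (wd S', mw d M') := by
  have hinp : ((mach D d P).inp w y (wd S) fun i =>
      mw d M ((mach D d P).cell (wd S) i).1 ((mach D d P).cell (wd S) i).2) = sd (wd S) ++
      (letW w[a]? ++ (letW y[a]? ++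
        (List.finRange P.length).flatMap fun i : Fin P.length =>
          sd (mw d M [] (posG d P i S)))) := by
    unfold Reader.inp
    rw [addr_wd D d P hS ha, Pool.Agent.Helper31.TMS.bval_bits]
    congr 4
    funext i
    dsimp only
    rw [cell_wd D d P hS]
  have hnx : (mach D d P).nx w y (wd S, mw d M) = wd S' := by
    unfold Reader.nx
    dsimp only
    rw [hinp]
    refine wf_eq (h1 _ ?_ ?_) hS'
    · rw [hd_eq, num_wd hS]
    · rw [tl_eq]
      rfl
  unfold Reader.step
  rw [hnx]
  refine Prod.ext rfl ?_
  funext u z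
  show (mach D d P).write (sd (wd S') ++ (sd u ++ (sd z.bits ++ mw d M u z))) = mw d M' u z
  refine wf_eq ?_ (Nat.succ_pos _)
  unfold writeF
  rw [hd_eq, tl_eq, tl_eq, hd_eq, tl_eq, ← bitsN_eq, bvN_bitsN, num_wd hS']
  unfold mw
  rw [num_wd (Nat.succ_pos _)]
  exact h2 z

theorem mO_zero (p n u : ℕ) {f : ℕ} (hf : f ≤ 1) : mO (sto f p n u 0) = 0 := by
  unfold mO
  rw [vO_sto hf]
  rfl

/-- The computation of the length. -/
theorem stepA (w y : List Bool) (n : ℕ) :
    (mach D d P).step w y (wd (sto 0 0 n 0 0), mw d fun _ => 0) =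
      (if n < w.length then wd (sto 0 0 (n + 1) 0 0) else wd (sto (accF P 0) 1 n 0 0),
        mw d fun _ => 0) := by
  have h0 : (0 : ℕ) ≤ 1 := by omega
  have haddr : addrF D P (sto 0 0 n 0 0) = bitsN n := by
    unfold addrF
    rw [pO_sto h0, ifz_zero, nO_sto h0]
  have key := step_mach D d P (w := w) (y := y)
    (S' := if n < w.length then sto 0 0 (n + 1) 0 0 else sto (accF P 0) 1 n 0 0)
    (M := fun _ => 0) (M' := fun _ => 0) (sto_pos _ _ _ _ _) haddr
    (by split_ifs <;> exact sto_pos _ _ _ _ _) ?_ ?_
  · rw [key]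
    by_cases hn : n < w.length
    · rw [if_pos hn, if_pos hn]
    · rw [if_neg hn, if_neg hn]
  · intro x hx1 hx2
    unfold nextF
    rw [hx1, hx2, pO_sto h0, ifz_zero, zz_w, nO_sto h0]
    by_cases hn : n < w.length
    · have h2 : lett w[n]? ≠ 0 := fun h => by
        rw [lett_none] at h
        omega
      rw [ifz_ne h2, if_pos hn]
    · rw [lett_none.2 (by omega), ifz_zero, if_neg hn]
  · intro z
    unfold wrG
    have h3 : mO (if n < w.length then sto 0 0 (n + 1) 0 0 else sto (accF P 0) 1 n 0 0) = 0 := by
      split_ifs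
      · exact mO_zero _ _ _ h0
      · exact mO_zero _ _ _ (accF_le _ _)
    rw [h3, ifz_zero]

end

/-! ### The computation -/

/-- The code of the last `store` before the step number `k`. -/
def msg (P : List Ins) (x y : List Bool) : ℕ → ℕ
  | 0 => 0
  | k + 1 => ifz (isSt P[(conf P x y k).1]?) 0
      (Nat.pair (uu P (conf P x y k)) (vvL P x y (conf P x y k)) + 1)

/-- The code of the state of the machine. -/
def stN (P : List Ins) (x y : List Bool) (n k : ℕ) : ℕ :=
  sto (accF P (conf P x y k).1) ((conf P x y k).1 + 1) n (tup (bd P + 1) (conf P x y k).2)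
    (Nat.pair (tup P.length fun i => cursor P x y i k) (msg P x y k))

/-- The number of the letters which are read. -/
def adN (D : LD) (P : List Ins) (x y : List Bool) (n k : ℕ) : ℕ :=
  ifz (inpL P[(conf P x y k).1]?) 0 (ifz (inpL P[(conf P x y k).1]? - 1)
    (adr1 D n (uu P (conf P x y k))) (uu P (conf P x y k)))

section

variable (D : LD) (d : ℕ) (P : List Ins) (x y : List Bool) (n k : ℕ)

theorem pO_stN : pO (stN P x y n k) = (conf P x y k).1 + 1 := pO_sto (accF_le _ _) _ _ _ _

theorem nO_stN : nO (stN P x y n k) = n := nO_sto (accF_le _ _) _ _ _ _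

theorem uO_stN : uO (stN P x y n k) = tup (bd P + 1) (conf P x y k).2 :=
  uO_sto (accF_le _ _) _ _ _ _

theorem cO_stN : cO (stN P x y n k) = tup P.length fun i => cursor P x y i k := by
  unfold cO stN
  rw [vO_sto (accF_le _ _), Nat.unpair_pair]

theorem mO_stN : mO (stN P x y n k) = msg P x y k := by
  unfold mO stN
  rw [vO_sto (accF_le _ _), Nat.unpair_pair]

theorem uS_stN : uS (bd P + 1) (stN P x y n k) P[(conf P x y k).1]? = uu P (conf P x y k) := by
  unfold uS
  rw [uO_stN, getV_tup (Nat.lt_succ_of_le (a0_le P _))]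
  rfl

theorem addrF_stN : addrF D P (stN P x y n k) = bitsN (adN D P x y n k) := by
  unfold addrF adN
  rw [pO_stN, ifz_ne (Nat.succ_ne_zero _), selF_eq, Nat.add_sub_cancel, uS_stN, nO_stN]

/-- The positions of the heads are the cursors after the step. -/
theorem posG_stN {i : ℕ} (hi : i < P.length) :
    posG d P i (stN P x y n k) = cursor P x y i (k + 1) / d := by
  unfold posG
  rw [pO_stN, ifz_ne (Nat.succ_ne_zero _), selF_eq, Nat.add_sub_cancel, uS_stN, cO_stN,
    getV_tup hi, cursor_succ, pO_stN, Nat.add_sub_cancel]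
  congr 1
  by_cases h : isL P[(conf P x y k).1]? ≠ 0 ∧ (conf P x y k).1 = i
  · have e : eq01 i (conf P x y k).1 = 1 := by
      unfold eq01
      rw [if_pos h.2.symm]
    rw [if_pos h, e, mul_one, ifz_ne h.1]
  · rw [if_neg h]
    have e : isL P[(conf P x y k).1]? * eq01 i (conf P x y k).1 = 0 := by
      by_cases h1 : isL P[(conf P x y k).1]? = 0
      · rw [h1, zero_mul]
      · have h2 : i ≠ (conf P x y k).1 := fun h2 => h ⟨h1, h2.symm⟩
        unfold eq01
        rw [if_neg h2, mul_zero]
    rw [e, ifz_zero]

end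

/-- The configurations of the machine. -/
theorem conf_machA (D : LD) (d : ℕ) (P : List Ins) (w y : List Bool) {t : ℕ}
    (ht : t ≤ w.length) :
    (mach D d P).conf w y t = (wd (sto 0 0 t 0 0), mw d fun _ => 0) := by
  induction t with
  | zero =>
    refine Prod.ext rfl ?_
    funext u z
    show [] = wd (tup d (fun _ => 0) + 1)
    rw [tup_zero, zero_add, wd_one]
  | succ t ih =>
    show (mach D d P).step w y ((mach D d P).conf w y t) = _
    rw [ih (by omega), stepA, if_pos (by omega)]

theorem vS_stN {D : LD} {F : List Bool → List Bool} (hF : D.Is F) {d : ℕ} (hd0 : 0 < d)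
    (P : List Ins) (w y : List Bool) (k : ℕ) :
    vS D d P.length (bd P + 1) (stN P (F w) y w.length k) (zz d P w y (adN D P (F w) y w.length k)
      (stN P (F w) y w.length k) (mem P (F w) y k))
      P[(conf P (F w) y k).1]? = vvL P (F w) y (conf P (F w) y k) := by
  unfold vS vvL
  rw [uS_stN, nO_stN, uO_stN, pO_stN, zz_w, zz_y, Nat.add_sub_cancel]
  by_cases h0 : inpL P[(conf P (F w) y k).1]? = 0
  · rw [h0, ifz_zero, ifz_zero]
    by_cases h1 : a1 P[(conf P (F w) y k).1]? (uu P (conf P (F w) y k)) < bd P + 1
    · have e : lt01 (a1 P[(conf P (F w) y k).1]? (uu P (conf P (F w) y k))) (bd P + 1) = 1 := by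
        unfold lt01
        rw [if_pos h1]
      rw [e, ifz_ne one_ne_zero, getV_tup h1]
    · have e : lt01 (a1 P[(conf P (F w) y k).1]? (uu P (conf P (F w) y k))) (bd P + 1) = 0 := by
        unfold lt01
        rw [if_neg h1]
      rw [e, ifz_zero]
      obtain ⟨⟨a, b, hab⟩, hu⟩ := a1_le' (Nat.lt_of_succ_le (Nat.le_of_not_lt h1))
      have hpc : (conf P (F w) y k).1 < P.length := (List.getElem?_eq_some_iff.1 hab).1
      have hb := zz_blk d P w y (adN D P (F w) y w.length k)
        (stN P (F w) y w.length k) (mem P (F w) y k) ⟨(conf P (F w) y k).1, hpc⟩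
      dsimp only at hb
      rw [hb, posG_stN d P (F w) y w.length k hpc, cursor_succ,
        if_pos ⟨by rw [hab]; exact one_ne_zero, rfl⟩, getV_tup (Nat.mod_lt _ hd0),
        Nat.div_add_mod', hu, mem_eq]
      rw [hu] at h1
      omega
  · rw [ifz_ne h0, ifz_ne h0]
    by_cases h1 : inpL P[(conf P (F w) y k).1]? - 1 = 0
    · have ha : adN D P (F w) y w.length k = adr1 D w.length (uu P (conf P (F w) y k)) := by
        unfold adN
        rw [ifz_ne h0, h1, ifz_zero]
      rw [h1, ifz_zero, ifz_zero, ha, lt_eq hF]
    · have ha : adN D P (F w) y w.length k = uu P (conf P (F w) y k) := by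
        unfold adN
        rw [ifz_ne h0, ifz_ne h1]
      rw [ifz_ne h1, ifz_ne h1, ha]

theorem conf_mach {D : LD} {F : List Bool → List Bool} (hF : D.Is F) {d : ℕ} (hd0 : 0 < d)
    (P : List Ins) (w y : List Bool) (k : ℕ) :
    (mach D d P).conf w y (w.length + 1 + k) = (wd (stN P (F w) y w.length k),
      mw d (mem P (F w) y k)) := by
  induction k with
  | zero =>
    rw [add_zero]
    show (mach D d P).step w y ((mach D d P).conf w y w.length) = _
    rw [conf_machA D d P w y le_rfl, stepA, if_neg (lt_irrefl _)]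
    refine Prod.ext ?_ rfl
    show wd (sto (accF P 0) 1 w.length 0 0) = wd (sto (accF P 0) (0 + 1) w.length
      (tup (bd P + 1) fun _ => 0) (Nat.pair (tup P.length fun _ => 0) 0))
    rw [tup_zero, tup_zero]
    rfl
  | succ k ih =>
    rw [← add_assoc]
    show (mach D d P).step w y ((mach D d P).conf w y (w.length + 1 + k)) = _
    rw [ih]
    have hv := vS_stN hF hd0 P w y k
    have hconf : conf P (F w) y (k + 1) = (npc P[(conf P (F w) y k).1]? (conf P (F w) y k).1
        (uu P (conf P (F w) y k)), Function.update (conf P (F w) y k).2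
          (dst P[(conf P (F w) y k).1]? (uu P (conf P (F w) y k)))
          (valL P[(conf P (F w) y k).1]? (uu P (conf P (F w) y k))
            (vvL P (F w) y (conf P (F w) y k)))) := by
      rw [conf_succ, step_eqL]
    refine step_mach D d P (S := stN P (F w) y w.length k)
      (S' := stN P (F w) y w.length (k + 1)) (sto_pos _ _ _ _ _)
      (addrF_stN D P (F w) y w.length k)
      (sto_pos _ _ _ _ _) ?_ ?_
    · intro x' hx1 hx2
      unfold nextF
      rw [hx1, hx2, pO_stN, ifz_ne (Nat.succ_ne_zero _), selF_eq, Nat.add_sub_cancel]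
      unfold nxS
      rw [hx1, hx2, pO_stN, Nat.add_sub_cancel, nO_stN, uO_stN, cO_stN, uS_stN, hv]
      unfold stN
      rw [hconf]
      dsimp only
      rw [setV_tup]
      congr 2
      by_cases h : isL P[(conf P (F w) y k).1]? = 0
      · rw [h, ifz_zero]
        refine tup_congr fun i _ => ?_
        rw [cursor_succ, if_neg fun h1 => h1.1 h]
      · rw [ifz_ne h, setV_tup]
        refine tup_congr fun i _ => ?_
        rw [cursor_succ]
        by_cases h2 : (conf P (F w) y k).1 = i
        · rw [if_pos ⟨h, h2⟩, h2, Function.update_self]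
        · rw [if_neg fun h1 => h2 h1.2, Function.update_of_ne fun h1 => h2 h1.symm]
    · intro z
      unfold wrG
      rw [mO_stN]
      show ifz (ifz (isSt P[(conf P (F w) y k).1]?) 0
        (Nat.pair (uu P (conf P (F w) y k)) (vvL P (F w) y (conf P (F w) y k)) + 1)) _
          (ifz (eq01 z ((Nat.unpair (ifz (isSt P[(conf P (F w) y k).1]?) 0
        (Nat.pair (uu P (conf P (F w) y k)) (vvL P (F w) y (conf P (F w) y k)) + 1) - 1)).1 / d)) _
        (setV d _ ((Nat.unpair (ifz (isSt P[(conf P (F w) y k).1]?) 0
        (Nat.pair (uu P (conf P (F w) y k)) (vvL P (F w) y (conf P (F w) y k)) + 1) - 1)).1 % d)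
          (Nat.unpair (ifz (isSt P[(conf P (F w) y k).1]?) 0
        (Nat.pair (uu P (conf P (F w) y k)) (vvL P (F w) y (conf P (F w) y k)) + 1) - 1)).2 + 1)) =
        tup d (fun j => (if isSt P[(conf P (F w) y k).1]? = 0 then mem P (F w) y k else
          Function.update (mem P (F w) y k) (uu P (conf P (F w) y k))
            (vvL P (F w) y (conf P (F w) y k))) (z * d + j)) + 1
      by_cases h : isSt P[(conf P (F w) y k).1]? = 0
      · rw [h, ifz_zero, ifz_zero, if_pos rfl]
      · rw [ifz_ne h, ifz_ne (Nat.succ_ne_zero _), if_neg h, Nat.add_sub_cancel,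
          Nat.unpair_pair, Nat.add_sub_cancel]
        dsimp only
        by_cases hz : z = uu P (conf P (F w) y k) / d
        · have e : eq01 z (uu P (conf P (F w) y k) / d) = 1 := by
            unfold eq01
            rw [if_pos hz]
          rw [e, ifz_ne one_ne_zero, setV_tup]
          congr 1
          refine tup_congr fun j hj => ?_
          have hdm : z * d + uu P (conf P (F w) y k) % d = uu P (conf P (F w) y k) := by
            rw [hz]
            exact Nat.div_add_mod' _ _
          by_cases hj' : j = uu P (conf P (F w) y k) % d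
          · rw [hj', Function.update_self, hdm, Function.update_self]
          · rw [Function.update_of_ne hj', Function.update_of_ne]
            intro h3
            rw [← hdm] at h3
            have h4 := Nat.add_left_cancel h3
            apply hj'
            conv_rhs => rw [← hdm]
            omega
        · have e : eq01 z (uu P (conf P (F w) y k) / d) = 0 := by
            unfold eq01
            rw [if_neg hz]
          rw [e, ifz_zero]
          congr 1
          refine tup_congr fun j hj => ?_
          rw [Function.update_of_ne]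
          intro h3
          apply hz
          rw [← h3, Nat.add_comm, Nat.add_mul_div_right _ _ hd0, Nat.div_eq_of_lt hj, zero_add]

/-- Acceptance. -/
theorem accepts_iff {D : LD} {F : List Bool → List Bool} (hF : D.Is F) {d : ℕ} (hd0 : 0 < d)
    (P : List Ins) (w y : List Bool) (r : ℕ) :
    (mach D d P).AcceptsAt w y r ↔ ∃ t, r = w.length + 1 + t ∧ AcceptsAt P (F w) y t := by
  unfold Reader.AcceptsAt AcceptsAt
  constructor
  · intro h
    rcases le_or_gt r w.length with hr | hr
    · rw [conf_machA D d P w y hr, head_st (by omega)] at h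
      omega
    obtain ⟨t, rfl⟩ : ∃ t, r = w.length + 1 + t := ⟨r - w.length - 1, by omega⟩
    refine ⟨t, rfl, ?_⟩
    rw [conf_mach hF hd0] at h
    unfold stN at h
    rw [head_st (accF_le _ _), accF_eq_one] at h
    exact h
  · rintro ⟨t, rfl, h⟩
    rw [conf_mach hF hd0]
    unfold stN
    rw [head_st (accF_le _ _), accF_eq_one]
    exact h

end Pool.Agent.Helper81.RR
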