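import Pool.Agent.Helper81.RR.Sim
import Pool.Agent.Helper92.RE.Good

/-!
# Programs of random access machines as machines with reading heads: bounds
-/

set_option autoImplicit false

namespace Pool.Agent.Helper81.RR

open Pool.Agent.Helper65.LinSpace Pool.Agent.Helper78.Mpc Pool.Agent.Helper28.Ram
open Pool.Agent.Helper65.BR (Reader)
open Pool.Agent.Helper81.RP (Ins lett step AcceptsAt conf conf_succ wd num_wd uu accF_le bd
  wd_one length_wd_le pc_le pair_lt)
open Pool.Agent.Helper92.RE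

theorem cursor_lt {P : List Ins} {x y : List Bool} {t b : ℕ}
    (h : ∀ k ≤ t, ∀ z, ld P (conf P x y k) = some z → z < 2 ^ b) (i : ℕ) {k : ℕ}
    (hk : k ≤ t + 1) : cursor P x y i k < 2 ^ b := by
  induction k with
  | zero => exact Nat.two_pow_pos _
  | succ k ih =>
    rw [cursor_succ]
    by_cases h1 : isL P[(conf P x y k).1]? ≠ 0 ∧ (conf P x y k).1 = i
    · rw [if_pos h1]
      refine h k (by omega) _ ?_
      rw [ld_eq, if_neg h1.1]
    · rw [if_neg h1]
      exact ih (by omega)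

theorem ld_lt {P : List Ins} {x y : List Bool} {t s : ℕ}
    (h : ∀ k ≤ t, ∀ i, (conf P x y k).2 i < 2 ^ s) : ∀ k ≤ t, ∀ z,
    ld P (conf P x y k) = some z → z < 2 ^ s := by
  intro k hk z hz
  rw [ld_eq] at hz
  by_cases h1 : isL P[(conf P x y k).1]? = 0
  · rw [if_pos h1] at hz
    exact absurd hz (by simp)
  · rw [if_neg h1] at hz
    have h2 := Option.some.inj hz
    rw [← h2]
    exact h k hk _

theorem msg_lt {P : List Ins} {x y : List Bool} {t s : ℕ} (hs : 1 ≤ s)
    (h : ∀ k ≤ t, ∀ i, (conf P x y k).2 i < 2 ^ s) {k : ℕ} (hk : k ≤ t) :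
    msg P x y k < 2 ^ (3 * s) := by
  rcases k with _ | k
  · exact Nat.two_pow_pos _
  · show ifz (isSt P[(conf P x y k).1]?) 0
      (Nat.pair (uu P (conf P x y k)) (vvL P x y (conf P x y k)) + 1) < 2 ^ (3 * s)
    by_cases h0 : isSt P[(conf P x y k).1]? = 0
    · rw [h0, ifz_zero]
      exact Nat.two_pow_pos _
    · rw [ifz_ne h0]
      have hu : uu P (conf P x y k) < 2 ^ s := h k (by omega) _
      have h1 := pair_lt hu (vvL_lt (h (k + 1) hk) h0)
      have h2 : 2 ^ (2 * s) < 2 ^ (3 * s) := Nat.pow_lt_pow_right (by norm_num) (by omega)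
      omega

theorem two_pow_gt (a s : ℕ) (hs : 1 ≤ s) : a + 1 < 2 ^ ((a + 2) * s) := by
  have h1 : a + 2 ≤ (a + 2) * s := Nat.le_mul_of_pos_right _ hs
  calc a + 1 < 2 ^ (a + 1) := Nat.lt_two_pow_self
    _ ≤ 2 ^ ((a + 2) * s) := Nat.pow_le_pow_right (by norm_num) (by omega)

/-- The constant for the bound of the state. -/
def cK (P : List Ins) : ℕ := bd P + 2 + 2 ^ (bd P + 1) + 2 * (2 ^ P.length + 3)

section

variable {D : LD} {F : List Bool → List Bool} (hF : D.Is F) {d : ℕ} (hd0 : 0 < d) {P : List Ins}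
  {w y : List Bool}

include hF hd0 in
theorem cell_mach {τ : ℕ} (hτ : w.length ≤ τ) (i : Fin P.length) :
    (mach D d P).cell ((mach D d P).conf w y τ).1 i =
      ([], cursor P (F w) y i (τ - w.length) / d) := by
  rcases Nat.eq_or_lt_of_le hτ with h | h
  · rw [← h, conf_machA D d P w y le_rfl, cell_wd D d P (sto_pos _ _ _ _ _), Nat.sub_self]
    unfold posG
    rw [pO_sto (by omega), ifz_zero]
    rfl
  · obtain ⟨k, rfl⟩ : ∃ k, τ = w.length + 1 + k := ⟨τ - w.length - 1, by omega⟩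
    have hpos : 0 < stN P (F w) y w.length k := sto_pos _ _ _ _ _
    rw [conf_mach hF hd0, cell_wd D d P hpos, posG_stN d P (F w) y w.length k i.2]
    congr 3
    omega

theorem cell_machA {τ : ℕ} (hτ : τ ≤ w.length) (i : Fin P.length) :
    (mach D d P).cell ((mach D d P).conf w y τ).1 i = ([], 0) := by
  rw [conf_machA D d P w y hτ, cell_wd D d P (sto_pos _ _ _ _ _)]
  unfold posG
  rw [pO_sto (by omega), ifz_zero, Nat.zero_div]

include hF hd0 in
/-- If a head moves, then this is because of an instruction `load`. -/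
theorem cell_ne {t : ℕ} (hacc : AcceptsAt P (F w) y t) {τ : ℕ} {i : Fin P.length}
    (h1 : τ < w.length + 1 + t)
    (h2 : (mach D d P).cell ((mach D d P).conf w y (τ + 1)).1 i ≠
      (mach D d P).cell ((mach D d P).conf w y τ).1 i) :
    ∃ k < t, τ = w.length + k ∧ (conf P (F w) y k).1 = i ∧
      ld P (conf P (F w) y k) = some (uu P (conf P (F w) y k)) ∧
      (mach D d P).cell ((mach D d P).conf w y (τ + 1)).1 i =
        ([], uu P (conf P (F w) y k) / d) ∧
      (mach D d P).cell ((mach D d P).conf w y τ).1 i =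
        ([], cursor P (F w) y (conf P (F w) y k).1 k / d) := by
  have hτ : w.length ≤ τ := by
    by_contra hcon
    rw [cell_machA (by omega), cell_machA (by omega)] at h2
    exact h2 rfl
  obtain ⟨k, rfl⟩ : ∃ k, τ = w.length + k := ⟨τ - w.length, by omega⟩
  have e1 := cell_mach (D := D) (P := P) (y := y) hF hd0 hτ i
  have e2 := cell_mach (D := D) (P := P) (y := y) hF hd0 (τ := w.length + k + 1) (w := w)
    (by omega) i
  rw [Nat.add_sub_cancel_left] at e1
  rw [show w.length + k + 1 - w.length = k + 1 by omega, cursor_succ] at e2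
  by_cases h3 : isL P[(conf P (F w) y k).1]? ≠ 0 ∧ (conf P (F w) y k).1 = i
  · rw [if_pos h3] at e2
    have hkt : k ≠ t := by
      rintro rfl
      have h4 : P[(conf P (F w) y k).1]? = some .accept := hacc
      rw [h4] at h3
      exact h3.1 rfl
    refine ⟨k, by omega, rfl, h3.2, ?_, e2, ?_⟩
    · rw [ld_eq, if_neg h3.1]
    · rw [h3.2]
      exact e1
  · rw [if_neg h3] at e2
    rw [e1, e2] at h2
    exact absurd rfl h2

include hF hd0 in
theorem moves_mach {t : ℕ} (hacc : AcceptsAt P (F w) y t) :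
    (mach D d P).moves w y (w.length + 1 + t) ≤ moves P (F w) y t := by
  have hfin : {k : ℕ | k < t ∧ ∃ z, ld P (conf P (F w) y k) = some z ∧
      z ≠ cursor P (F w) y (conf P (F w) y k).1 k}.Finite :=
    (Set.finite_lt_nat t).subset fun k hk => hk.1
  unfold Reader.moves moves
  refine Set.ncard_le_ncard_of_injOn (fun z => z.1 - w.length) ?_ ?_ hfin
  · rintro ⟨τ, i⟩ ⟨h1, h2⟩
    obtain ⟨k, hk, rfl, -, h3, h4, h5⟩ := cell_ne hF hd0 hacc h1 h2
    dsimp only
    rw [Nat.add_sub_cancel_left]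
    refine ⟨hk, _, h3, fun h6 => h2 ?_⟩
    dsimp only
    rw [h4, h5, h6]
  · rintro ⟨τ, i⟩ ⟨h1, h2⟩ ⟨τ', i'⟩ ⟨h1', h2'⟩ h
    obtain ⟨k, hk, hτ, hi, -⟩ := cell_ne hF hd0 hacc h1 h2
    obtain ⟨k', hk', hτ', hi', -⟩ := cell_ne hF hd0 hacc h1' h2'
    dsimp only at h hτ hτ' hi hi'
    subst hτ hτ'
    have hkk : k = k' := by omega
    subst hkk
    exact Prod.ext rfl (Fin.ext (hi.symm.trans hi'))

include hF hd0 in
theorem jumps_mach {t : ℕ} (hacc : AcceptsAt P (F w) y t) :
    (mach D d P).jumps w y (w.length + 1 + t) ≤ jumps P d (F w) y t := by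
  have hfin : {k : ℕ | k < t ∧ ∃ z, ld P (conf P (F w) y k) = some z ∧
      (z + d < cursor P (F w) y (conf P (F w) y k).1 k ∨
        cursor P (F w) y (conf P (F w) y k).1 k + d < z)}.Finite :=
    (Set.finite_lt_nat t).subset fun k hk => hk.1
  have hne : ∀ x z : List Bool × ℕ, ¬Reader.Near x z → x ≠ z := by
    rintro x z h rfl
    exact h ⟨rfl, by omega, by omega⟩
  unfold Reader.jumps jumps
  refine Set.ncard_le_ncard_of_injOn (fun z => z.1 - w.length) ?_ ?_ hfin
  · rintro ⟨τ, i⟩ ⟨h1, h2⟩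
    obtain ⟨k, hk, rfl, -, h3, h4, h5⟩ := cell_ne hF hd0 hacc h1 (hne _ _ h2)
    dsimp only at h2 h4 h5 ⊢
    rw [Nat.add_sub_cancel_left]
    refine ⟨hk, _, h3, ?_⟩
    by_contra h6
    rw [h4, h5] at h2
    push Not at h6
    refine h2 ⟨rfl, ?_, ?_⟩
    · show uu P (conf P (F w) y k) / d ≤ cursor P (F w) y (conf P (F w) y k).1 k / d + 1
      rw [← Nat.add_div_right _ hd0]
      exact Nat.div_le_div_right h6.2
    · show cursor P (F w) y (conf P (F w) y k).1 k / d ≤ uu P (conf P (F w) y k) / d + 1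
      rw [← Nat.add_div_right _ hd0]
      exact Nat.div_le_div_right h6.1
  · rintro ⟨τ, i⟩ ⟨h1, h2⟩ ⟨τ', i'⟩ ⟨h1', h2'⟩ h
    obtain ⟨k, hk, hτ, hi, -⟩ := cell_ne hF hd0 hacc h1 (hne _ _ h2)
    obtain ⟨k', hk', hτ', hi', -⟩ := cell_ne hF hd0 hacc h1' (hne _ _ h2')
    dsimp only at h hτ hτ' hi hi'
    subst hτ hτ'
    have hkk : k = k' := by omega
    subst hkk
    exact Prod.ext rfl (Fin.ext (hi.symm.trans hi'))

include hF hd0 in
theorem fits_mach {t s b : ℕ} (hs : 1 ≤ s) (hn : w.length < 2 ^ s)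
    (hR : ∀ k ≤ t, ∀ i, (conf P (F w) y k).2 i < 2 ^ s)
    (hb : ∀ k ≤ t, ∀ z, ld P (conf P (F w) y k) = some z → z < 2 ^ b) :
    (mach D d P).Fits w y (w.length + 1 + t) ((8 * cK P + 1) * s) b (2 ^ d * s) := by
  have hp1 := Nat.two_pow_pos (bd P + 1)
  have hp2 := Nat.two_pow_pos P.length
  have hck : bd P + 2 ≤ cK P := by
    unfold cK
    omega
  have hck1 : 1 ≤ cK P := by omega
  have hsc : s ≤ cK P * s := Nat.le_mul_of_pos_left _ hck1
  have hss : s ≤ (8 * cK P + 1) * s := Nat.le_mul_of_pos_left _ (by omega)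
  have hlen : 8 * (cK P * s) + 1 ≤ (8 * cK P + 1) * s := by
    rw [Nat.add_mul, Nat.mul_assoc, one_mul]
    omega
  have hpow : ∀ j : ℕ, j ≤ cK P → 2 ^ (j * s) ≤ 2 ^ (cK P * s) := fun j hj =>
    Nat.pow_le_pow_right (by norm_num) (Nat.mul_le_mul_right _ hj)
  have hpow1 : 2 ^ s ≤ 2 ^ (cK P * s) := Nat.pow_le_pow_right (by norm_num) hsc
  have h2 : 1 < 2 ^ (cK P * s) := Nat.one_lt_two_pow (by
    have := Nat.mul_pos hck1 hs
    omega)
  have hbs : ∀ j : ℕ, j < 2 ^ s → j.bits.length ≤ s := fun j hj => length_bits hj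
  have hmw : ∀ M : ℕ → ℕ, (∀ j, M j < 2 ^ s) → ∀ u z, (mw d M u z).length ≤ 2 ^ d * s := by
    intro M hM u z
    unfold mw
    refine length_wd_le (Nat.succ_pos _) ?_
    have h3 := tup_lt (m := d) (s := s) (f := fun j => M (z * d + j)) fun i _ => hM _
    rw [pow_succ]
    omega
  intro τ hτ
  rcases le_or_gt τ w.length with h | h
  · -- the computation of the length
    rw [conf_machA D d P w y h]
    refine ⟨?_, ?_, fun i => ⟨?_, ?_⟩, fun u z _ _ => hmw _ (fun _ => Nat.two_pow_pos _) u z⟩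
    · refine (length_sto (s := cK P * s) (by omega) (by omega) ?_ (by omega)
        (by omega)).trans hlen
      omega
    · have ha : addrF D P (sto 0 0 τ 0 0) = bitsN τ := by
        unfold addrF
        rw [pO_sto (by omega), ifz_zero, nO_sto (by omega)]
      rw [addr_wd D d P (sto_pos _ _ _ _ _) ha]
      exact (hbs τ (by omega)).trans hss
    · rw [arr_eq]
      exact Nat.zero_le _
    · dsimp only
      rw [pos_wd D d P (sto_pos _ _ _ _ _)]
      unfold posG
      rw [pO_sto (by omega), ifz_zero, Nat.zero_div]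
      exact Nat.zero_le _
  · obtain ⟨k, rfl⟩ : ∃ k, τ = w.length + 1 + k := ⟨τ - w.length - 1, by omega⟩
    have hk : k ≤ t := by omega
    have hpos : 0 < stN P (F w) y w.length k := sto_pos _ _ _ _ _
    rw [conf_mach hF hd0]
    refine ⟨?_, ?_, fun i => ⟨?_, ?_⟩, fun u z _ _ => hmw _ (mem_lt hR hk) u z⟩
    · refine (length_sto (s := cK P * s) (accF_le _ _) ?_ ?_ ?_ ?_).trans hlen
      · have h3 := pc_le P (F w) y k
        have h4 := two_pow_gt (bd P) s hs
        have h5 := hpow (bd P + 2) hck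
        omega
      · omega
      · refine (tup_lt (s := s) fun i _ => hR k hk i).trans_le (hpow _ ?_)
        unfold cK
        omega
      · have h3 : tup P.length (fun i => cursor P (F w) y i k) < 2 ^ ((2 ^ P.length + 3) * s) :=
          (tup_lt (s := s) fun i _ => cursor_lt (ld_lt hR) i (by omega)).trans_le
            (Nat.pow_le_pow_right (by norm_num) (Nat.mul_le_mul_right _ (by omega)))
        have h4 : msg P (F w) y k < 2 ^ ((2 ^ P.length + 3) * s) :=
          (msg_lt hs hR hk).trans_le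
            (Nat.pow_le_pow_right (by norm_num) (Nat.mul_le_mul_right _ (by omega)))
        refine (pair_lt h3 h4).trans_le ?_
        rw [← Nat.mul_assoc]
        refine hpow _ ?_
        unfold cK
        omega
    · rw [addr_wd D d P hpos (addrF_stN D P (F w) y w.length k)]
      refine (hbs _ ?_).trans hss
      unfold adN ifz
      split_ifs
      · exact Nat.two_pow_pos _
      · exact adr1_lt hn
      · exact hR k hk _
    · rw [arr_eq]
      exact Nat.zero_le _
    · dsimp only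
      rw [pos_wd D d P hpos, posG_stN d P (F w) y w.length k i.2]
      exact length_bits ((Nat.div_le_self _ _).trans_lt (cursor_lt hb i (by omega)))

end

/-- The bounds. -/
theorem bounds {C N N' B l l' s M M' J J' c₁ c₂ : ℝ} (hl : 0 ≤ l') (hll : l' ≤ l)
    (hs : 1 ≤ s) (hl's : l' ≤ 2 * s) (hM' : 0 ≤ M') (hMM : M' ≤ M) (hJ' : 0 ≤ J') (hJJ : J' ≤ J)
    (hN : 1 ≤ N) (hNN : N ≤ N') (hB : 1 ≤ B) (hN' : N' ≤ B * N) (hc : 0 ≤ c₁) (hc2 : 0 ≤ c₂)
    (b1 : M * (J + N') * s * l ^ 4 ≤ C * N' ^ 3) (b2 : s * l ^ 4 ≤ C * N') :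
    M' * (J' + N) * (c₂ * s + 1) * l' ^ 4 ≤ (c₁ + c₂ + 2) * |C| * B ^ 3 * N ^ 3 ∧
      (c₁ * s + c₂ * s + l') * l' ^ 4 ≤ (c₁ + c₂ + 2) * |C| * B ^ 3 * N := by
  have hC : 0 ≤ |C| := abs_nonneg C
  have hJ : 0 ≤ J := hJ'.trans hJJ
  have hM : 0 ≤ M := hM'.trans hMM
  have hN0 : 0 ≤ N := by linarith
  have hN'0 : 0 ≤ N' := by linarith
  have hB0 : 0 ≤ B := by linarith
  have hs0 : 0 ≤ s := by linarith
  have hl0 : 0 ≤ l := hl.trans hll
  have hB3 : B ≤ B ^ 3 := le_self_pow₀ hB (by norm_num)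
  have c1 : M * (J + N') * s * l ^ 4 ≤ |C| * B ^ 3 * N ^ 3 := by
    calc M * (J + N') * s * l ^ 4 ≤ C * N' ^ 3 := b1
      _ ≤ |C| * N' ^ 3 := mul_le_mul_of_nonneg_right (le_abs_self C) (by positivity)
      _ ≤ |C| * (B * N) ^ 3 := by gcongr
      _ = _ := by ring
  have c2 : s * l ^ 4 ≤ |C| * B ^ 3 * N := by
    calc s * l ^ 4 ≤ C * N' := b2
      _ ≤ |C| * N' := mul_le_mul_of_nonneg_right (le_abs_self C) hN'0
      _ ≤ |C| * (B ^ 3 * N) := by
        refine mul_le_mul_of_nonneg_left (hN'.trans ?_) hC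
        exact mul_le_mul_of_nonneg_right hB3 hN0
      _ = _ := by ring
  constructor
  · calc M' * (J' + N) * (c₂ * s + 1) * l' ^ 4 ≤ M * (J + N') * (c₂ * s + s) * l ^ 4 := by
          gcongr
      _ = (c₂ + 1) * (M * (J + N') * s * l ^ 4) := by ring
      _ ≤ (c₂ + 1) * (|C| * B ^ 3 * N ^ 3) := by gcongr
      _ ≤ (c₁ + c₂ + 2) * (|C| * B ^ 3 * N ^ 3) := by
        refine mul_le_mul_of_nonneg_right (by linarith) (by positivity)
      _ = _ := by ring
  · calc (c₁ * s + c₂ * s + l') * l' ^ 4 ≤ (c₁ * s + c₂ * s + 2 * s) * l ^ 4 := by gcongr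
      _ = (c₁ + c₂ + 2) * (s * l ^ 4) := by ring
      _ ≤ (c₁ + c₂ + 2) * (|C| * B ^ 3 * N) := by gcongr
      _ = _ := by ring

/-- **The bounds for the machine** which runs the program. -/
theorem within_mach {D : LD} {F : List Bool → List Bool} (hF : D.Is F) {b₀ : ℕ}
    (hlen : ∀ w, (F w).length ≤ b₀ * (w.length + 1)) (hle : ∀ w, w.length ≤ (F w).length)
    {d : ℕ} (hd0 : 0 < d) (P : List Ins) (C : ℝ) :
    ∃ C' : ℝ, ∀ w y : List Bool, Within P d C (F w) y → (mach D d P).Within C' w y := by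
  set B : ℝ := (b₀ : ℝ) + 1 with hB
  have hB1 : 1 ≤ B := by
    have h1 : (0 : ℝ) ≤ b₀ := Nat.cast_nonneg _
    linarith
  refine ⟨((8 * (cK P : ℝ) + 1) + 2 ^ d + 2) * |C| * B ^ 3, ?_⟩
  rintro w y ⟨t, s, b, hls, hacc, hR, hb, b1, b2⟩
  have hwx : w.length ≤ (F w).length := hle w
  have hs1 : 1 ≤ s := by omega
  have hlogF : Nat.log 2 w.length ≤ Nat.log 2 (F w).length := Nat.log_mono_right hwx
  have hn : w.length < 2 ^ s := by
    refine hwx.trans_lt ((Nat.lt_pow_succ_log_self (b := 2) (by norm_num) _).trans_le ?_)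
    exact Nat.pow_le_pow_right (by norm_num) hls
  have hb' : ∀ k ≤ t, ∀ z, ld P (conf P (F w) y k) = some z → z < 2 ^ min b s := by
    intro k hk z hz
    rcases le_total b s with h | h
    · rw [min_eq_left h]
      exact hb k hk z hz
    · rw [min_eq_right h]
      exact ld_lt hR k hk z hz
  have hN' : ((F w).length : ℝ) + 1 ≤ B * ((w.length : ℝ) + 1) := by
    have h1 : (F w).length + 1 ≤ (b₀ + 1) * (w.length + 1) := by
      have h2 := hlen w
      calc (F w).length + 1 ≤ b₀ * (w.length + 1) + 1 := by omega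
        _ ≤ (b₀ + 1) * (w.length + 1) := by nlinarith
    rw [hB]
    exact_mod_cast h1
  have hJ1 := jumps_mach (D := D) hF hd0 hacc
  have hM1 := moves_mach (D := D) hF hd0 hacc
  have h0 : (0 : ℝ) ≤ w.length := Nat.cast_nonneg _
  have hNN : (w.length : ℝ) + 1 ≤ ((F w).length : ℝ) + 1 := by
    have : (w.length : ℝ) ≤ (F w).length := by exact_mod_cast hwx
    linarith
  have hll : (((min b s : ℕ) : ℝ) + ((Nat.log 2 w.length : ℝ) + 1)) ≤
      (b : ℝ) + ((Nat.log 2 (F w).length : ℝ) + 1) := by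
    have h1 : ((min b s : ℕ) : ℝ) ≤ b := by exact_mod_cast min_le_left b s
    have h2 : (Nat.log 2 w.length : ℝ) ≤ Nat.log 2 (F w).length := by exact_mod_cast hlogF
    linarith
  have hls2 : (((min b s : ℕ) : ℝ) + ((Nat.log 2 w.length : ℝ) + 1)) ≤ 2 * s := by
    have h1 : min b s + (Nat.log 2 w.length + 1) ≤ 2 * s := by
      have := min_le_right b s
      omega
    exact_mod_cast h1
  obtain ⟨q1, q2⟩ := bounds (C := C) (N := (w.length : ℝ) + 1) (N' := ((F w).length : ℝ) + 1)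
    (B := B) (l := (b : ℝ) + ((Nat.log 2 (F w).length : ℝ) + 1))
    (l' := ((min b s : ℕ) : ℝ) + ((Nat.log 2 w.length : ℝ) + 1)) (s := (s : ℝ))
    (M := (moves P (F w) y t : ℝ)) (M' := ((mach D d P).moves w y (w.length + 1 + t) : ℝ))
    (J := (jumps P d (F w) y t : ℝ)) (J' := ((mach D d P).jumps w y (w.length + 1 + t) : ℝ))
    (c₁ := 8 * (cK P : ℝ) + 1) (c₂ := 2 ^ d) (by positivity) hll (by exact_mod_cast hs1) hls2
    (Nat.cast_nonneg _) (by exact_mod_cast hM1) (Nat.cast_nonneg _) (by exact_mod_cast hJ1)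
    (by linarith) hNN hB1 hN' (by positivity) (by positivity) (by rw [← add_assoc]; exact b1) b2
  refine ⟨w.length + 1 + t, (8 * cK P + 1) * s, min b s, 2 ^ d * s,
    (accepts_iff hF hd0 P w y _).2 ⟨t, rfl, hacc⟩, fits_mach hF hd0 hs1 hn hR hb', ?_, ?_⟩
  · push_cast at q1 ⊢
    rw [add_assoc ((mach D d P).jumps w y (w.length + 1 + t) : ℝ)]
    exact q1
  · push_cast at q2 ⊢
    exact q2

end Pool.Agent.Helper81.RR
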