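import Pool.Agent.Helper81.RR.Good
import Pool.Agent.Helper65.BR.Hub

/-!
# Programs of random access machines which load few registers
-/

set_option autoImplicit false

namespace Pool.Agent.Helper81.RR

open Pool.Agent.Helper65.BR (Reader SimA)
open Pool.Agent.Helper81.RP (Ins AcceptsAt)
open Pool.Agent.Helper92.RE

theorem simA_imp {c : ℕ} {Acc Good Acc' Good' : List Bool → List Bool → Prop}
    (h : SimA c Acc Good) (h1 : ∀ w y, Acc w y → Acc' w y) (h2 : ∀ w y, Good' w y → Good w y) :
    SimA c Acc' Good' := by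
  obtain ⟨A, G, h3, h4, h5, n, h6⟩ := h
  exact ⟨A, G, h3, fun w y h => h1 w y (h4 w y h), fun w y h => h5 w y (h2 w y h), n,
    fun w y hw hy h => h6 w y hw hy (h2 w y h)⟩

/-- **Programs** on the words `F w` and `y`, which load few registers. -/
theorem sim_prog (c : ℕ) {D : LD} {F : List Bool → List Bool} (hD : D.Is F) {b : ℕ}
    (hlen : ∀ w, (F w).length ≤ b * (w.length + 1)) (hle : ∀ w, w.length ≤ (F w).length)
    {d : ℕ} (hd0 : 0 < d) (P : List Ins) (C : ℝ)
    (h : ∀ (A : Reader P.length) (C : ℝ),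
      SimA c (fun w y => ∃ t, A.AcceptsAt w y t) (A.Within C)) :
    SimA c (fun w y => ∃ t, AcceptsAt P (F w) y t) (fun w y => Within P d C (F w) y) := by
  obtain ⟨C', hC'⟩ := within_mach hD hlen hle hd0 P C
  refine simA_imp (h (mach D d P) C') ?_ hC'
  rintro w y ⟨r, hr⟩
  obtain ⟨t, -, ht⟩ := (accepts_iff hD hd0 P w y r).1 hr
  exact ⟨t, ht⟩

end Pool.Agent.Helper81.RR
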