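import Pool.Agent.Helper81.RP.Defs

/-!
# Programs of random access machines which load few registers: definitions
-/

set_option autoImplicit false

namespace Pool.Agent.Helper81.RR

open Pool.Agent.Helper81.RP (Ins AcceptsAt conf)

/-- The register which is loaded by the next instruction, if it is `load`. -/
def ld (P : List Ins) (c : ℕ × (ℕ → ℕ)) : Option ℕ :=
  match P[c.1]? with
  | some (.load _ j) => some (c.2 j)
  | _ => none

/-- The cursor of the instruction number `i` before the step number `k`: the register which was loaded
last by this instruction, and `0` if it has not loaded a register yet. -/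
def cursor (P : List Ins) (w y : List Bool) (i : ℕ) : ℕ → ℕ
  | 0 => 0
  | k + 1 => match ld P (conf P w y k) with
    | some z => if (conf P w y k).1 = i then z else cursor P w y i k
    | none => cursor P w y i k

/-- The number of moves in the first `t` steps: a move is a step in which an instruction loads another
register than the last time. -/
noncomputable def moves (P : List Ins) (w y : List Bool) (t : ℕ) : ℕ :=
  {k : ℕ | k < t ∧ ∃ z, ld P (conf P w y k) = some z ∧
    z ≠ cursor P w y (conf P w y k).1 k}.ncard

/-- The number of jumps in the first `t` steps: a jump is a step in which an instruction loads a register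
whose number differs by more than `d` from the last time. -/
noncomputable def jumps (P : List Ins) (d : ℕ) (w y : List Bool) (t : ℕ) : ℕ :=
  {k : ℕ | k < t ∧ ∃ z, ld P (conf P w y k) = some z ∧
    (z + d < cursor P w y (conf P w y k).1 k ∨ cursor P w y (conf P w y k).1 k + d < z)}.ncard

/-- The program `P` accepts the word `w` of length `n`, with the second word `y`, at some time `t`, with
`M` moves and `J` jumps, all numbers in the registers being less than `2 ^ s` up to this time, and the
numbers of the registers which are loaded less than `2 ^ b`, where `⌊log₂ n⌋ + 1 ≤ s` and, for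
`l = b + ⌊log₂ n⌋ + 1`, `M (J + n + 1) s l ^ 4 ≤ C (n + 1) ^ 3` and `s l ^ 4 ≤ C (n + 1)`. The time is
not bounded. For example, `P` accepts `w` with numbers of `O(log n)` bits, and
`M (J + n) ≤ C n ^ 3 / log ^ 5 n`. -/
def Within (P : List Ins) (d : ℕ) (C : ℝ) (w y : List Bool) : Prop :=
  ∃ t s b : ℕ, Nat.log 2 w.length + 1 ≤ s ∧ AcceptsAt P w y t ∧
    (∀ k ≤ t, ∀ i, (conf P w y k).2 i < 2 ^ s) ∧
    (∀ k ≤ t, ∀ z, ld P (conf P w y k) = some z → z < 2 ^ b) ∧
    (moves P w y t : ℝ) * ((jumps P d w y t : ℝ) + w.length + 1) * s *
      ((b : ℝ) + ((Nat.log 2 w.length : ℝ) + 1)) ^ 4 ≤ C * ((w.length : ℝ) + 1) ^ 3 ∧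
    (s : ℝ) * ((b : ℝ) + ((Nat.log 2 w.length : ℝ) + 1)) ^ 4 ≤ C * ((w.length : ℝ) + 1)

end Pool.Agent.Helper81.RR
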