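import Pool.Agent.Helper92.RE.Mach

/-!
# Vectors of numbers and the words which are read
-/

set_option autoImplicit false

namespace Pool.Agent.Helper81.RR

open Pool.Agent.Helper65.LinSpace Pool.Agent.Helper78.Mpc Pool.Agent.Helper28.Ram
open Pool.Agent.Helper65.OH (letW)
open Pool.Agent.Helper81.RP (lett hd tl ls_hd ls_tl hd_eq tl_eq ls_pair pair_lt)

/-! ### Vectors -/

/-- The code of the vector `f 0, …, f (m - 1)`. -/
def tup : ℕ → (ℕ → ℕ) → ℕ
  | 0, _ => 0
  | m + 1, f => Nat.pair (f 0) (tup m fun i => f (i + 1))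

/-- The component number `i`. -/
def getV : ℕ → ℕ → ℕ → ℕ
  | 0, _, _ => 0
  | m + 1, x, i => ifz i (Nat.unpair x).1 (getV m (Nat.unpair x).2 (i - 1))

/-- Change the component number `i` to `v`. -/
def setV : ℕ → ℕ → ℕ → ℕ → ℕ
  | 0, x, _, _ => x
  | m + 1, x, i, v => ifz i (Nat.pair v (Nat.unpair x).2)
      (Nat.pair (Nat.unpair x).1 (setV m (Nat.unpair x).2 (i - 1) v))

theorem getV_tup {m : ℕ} {f : ℕ → ℕ} {i : ℕ} (hi : i < m) : getV m (tup m f) i = f i := by
  induction m generalizing f i with
  | zero => omega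
  | succ m ih =>
    unfold getV tup
    rw [Nat.unpair_pair]
    rcases i with _ | i
    · rw [ifz_zero]
    · rw [ifz_ne (Nat.succ_ne_zero _), Nat.add_sub_cancel, ih (by omega)]

theorem tup_congr {m : ℕ} {f g : ℕ → ℕ} (h : ∀ i < m, f i = g i) : tup m f = tup m g := by
  induction m generalizing f g with
  | zero => rfl
  | succ m ih =>
    unfold tup
    rw [h 0 (by omega), ih fun i hi => h (i + 1) (by omega)]

theorem setV_tup (m : ℕ) (f : ℕ → ℕ) (i v : ℕ) :
    setV m (tup m f) i v = tup m (Function.update f i v) := by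
  induction m generalizing f i with
  | zero => rfl
  | succ m ih =>
    unfold setV tup
    rw [Nat.unpair_pair]
    rcases i with _ | i
    · rw [ifz_zero, Function.update_self]
      congr 1
    · rw [ifz_ne (Nat.succ_ne_zero _), Nat.add_sub_cancel, ih]
      rw [Function.update_of_ne (by omega)]
      congr 2
      funext j
      by_cases h : j = i
      · subst h
        rw [Function.update_self, Function.update_self]
      · rw [Function.update_of_ne h, Function.update_of_ne (by omega)]

theorem tup_zero (m : ℕ) : tup m (fun _ => 0) = 0 := by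
  induction m with
  | zero => rfl
  | succ m ih =>
    unfold tup
    rw [ih]
    rfl

theorem tup_lt {m s : ℕ} {f : ℕ → ℕ} (h : ∀ i < m, f i < 2 ^ s) : tup m f < 2 ^ (2 ^ m * s) := by
  induction m generalizing f with
  | zero => exact Nat.two_pow_pos _
  | succ m ih =>
    have h1 := ih (f := fun i => f (i + 1)) fun i hi => h (i + 1) (by omega)
    have h2 : f 0 < 2 ^ (2 ^ m * s) := (h 0 (by omega)).trans_le
      (Nat.pow_le_pow_right (by norm_num) (Nat.le_mul_of_pos_left _ (Nat.two_pow_pos _)))
    have h3 := pair_lt h2 h1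
    unfold tup
    refine h3.trans_le (le_of_eq ?_)
    congr 1
    rw [pow_succ]
    ring

/-! ### The words which are read -/

/-- The number of the block number `i < K` of a word which consists of `K` blocks. -/
def blkV : ℕ → ℕ → ℕ → ℕ
  | 0, _, _ => 0
  | K + 1, x, i => ifz i (hd x) (blkV K (tl x) (i - 1))

theorem blkV_eq {K : ℕ} (v : Fin K → List Bool) (i : Fin K) :
    blkV K (num ((List.finRange K).flatMap fun i => sd (v i))) i = num (v i) := by
  induction K with
  | zero => exact i.elim0
  | succ K ih =>
    have e : ((List.finRange (K + 1)).flatMap fun i => sd (v i)) =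
        sd (v 0) ++ (List.finRange K).flatMap fun i => sd (v i.succ) := by
      rw [List.finRange_succ, List.flatMap_cons, List.flatMap_map]
    rw [e]
    unfold blkV
    rw [hd_eq, tl_eq]
    refine Fin.cases ?_ (fun j => ?_) i
    · rw [Fin.val_zero, ifz_zero]
    · rw [Fin.val_succ, ifz_ne (Nat.succ_ne_zero _), Nat.add_sub_cancel]
      exact ih (fun i => v i.succ) j

/-- The code of a letter. -/
def l3 (c : ℕ) : ℕ := ifz c 0 (ifz (c - 1) 1 2)

theorem num_letW (o : Option Bool) (r : List Bool) :
    num (letW o ++ r) = (ifz (lett o) 0 (ifz (lett o - 1) 1 3)) + 4 * num r := by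
  rcases o with _ | b
  · simp [letW, num, lett, ifz]
    ring
  · cases b
    · simp [letW, num, lett, ifz]
      ring
    · simp [letW, num, lett, ifz]
      ring

theorem l3_letW (o : Option Bool) (r : List Bool) : l3 (num (letW o ++ r) % 4) = lett o := by
  rw [num_letW]
  rcases o with _ | b
  · simp [lett, ifz, l3]
  · cases b
    · simp [lett, ifz, l3, Nat.add_mul_mod_self_left]
    · simp [lett, ifz, l3, Nat.add_mul_mod_self_left]

theorem div_letW (o : Option Bool) (r : List Bool) : num (letW o ++ r) / 4 = num r := by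
  rw [num_letW]
  have h : (ifz (lett o) 0 (ifz (lett o - 1) 1 3)) < 4 := by
    unfold ifz
    split_ifs <;> norm_num
  omega

/-- The value `bval` of the word with the number `v`. -/
def bvN (v : ℕ) : ℕ := v - 2 ^ Nat.log 2 v

theorem num_eq_bval (u : List Bool) : num u = bval u + 2 ^ u.length := by
  induction u with
  | nil => rfl
  | cons b u ih =>
    show b.toNat + 2 * num u = (b.toNat + 2 * bval u) + 2 ^ (u.length + 1)
    rw [ih, pow_succ]
    ring

theorem bvN_bitsN (i : ℕ) : bvN (bitsN i) = i := by
  unfold bvN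
  rw [bitsN_eq, log_num, num_eq_bval, Nat.add_sub_cancel]
  exact Pool.Agent.Helper31.TMS.bval_bits i

section

variable {α : Type} [Ctx α]

theorem ls_getV (m : ℕ) {x i : α → ℕ} (hx : LS x) (hi : LS i) :
    LS (fun a => getV m (x a) (i a)) := by
  induction m generalizing x i with
  | zero => exact LS.const 0
  | succ m ih =>
    have h1 := ih (x := fun a => (Nat.unpair (x a)).2) (i := fun a => i a - 1) (by fun_prop)
      (by fun_prop)
    have h2 : LS (fun a => (Nat.unpair (x a)).1) := by fun_prop
    exact LS.ifz hi h2 h1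

theorem ls_setV (m : ℕ) {x i v : α → ℕ} (hx : LS x) (hi : LS i) (hv : LS v) :
    LS (fun a => setV m (x a) (i a) (v a)) := by
  induction m generalizing x i with
  | zero => exact hx
  | succ m ih =>
    have h1 := ih (x := fun a => (Nat.unpair (x a)).2) (i := fun a => i a - 1) (by fun_prop)
      (by fun_prop)
    have h2 : LS (fun a => (Nat.unpair (x a)).1) := by fun_prop
    have h3 : LS (fun a => (Nat.unpair (x a)).2) := by fun_prop
    exact LS.ifz hi (ls_pair hv h3) (ls_pair h2 h1)

theorem ls_blkV (K : ℕ) {x i : α → ℕ} (hx : LS x) (hi : LS i) :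
    LS (fun a => blkV K (x a) (i a)) := by
  induction K generalizing x i with
  | zero => exact LS.const 0
  | succ K ih =>
    have h1 := ih (x := fun a => tl (x a)) (i := fun a => i a - 1) (LS.comp (g := tl) ls_tl hx)
      (by fun_prop)
    exact LS.ifz hi (LS.comp (g := hd) ls_hd hx) h1

theorem ls_l3 {c : α → ℕ} (hc : LS c) : LS (fun a => l3 (c a)) := by
  unfold l3
  exact LS.ifz hc (LS.const 0) (LS.ifz (by fun_prop) (LS.const 1) (LS.const 2))

theorem ls_bvN {c : α → ℕ} (hc : LS c) : LS (fun a => bvN (c a)) :=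
  LS.sub hc (LS.pow_log hc)

end

end Pool.Agent.Helper81.RR
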