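import Pool.Agent.Helper81.RR.Defs
import Pool.Agent.Helper81.RR.Vec
import Pool.Agent.Helper65.BR.SDefs

/-!
# Programs of random access machines as machines with reading heads

There is one head for every instruction of the program. The cell number `z` contains the registers
`d z, …, d z + d - 1`.
-/

set_option autoImplicit false

namespace Pool.Agent.Helper81.RR

open Pool.Agent.Helper65.LinSpace Pool.Agent.Helper78.Mpc Pool.Agent.Helper28.Ram
open Pool.Agent.Helper65.OH (letW)
open Pool.Agent.Helper65.BR (Reader)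
open Pool.Agent.Helper81.RP (Ins lett step AcceptsAt conf wd wf num_wd wd_num wf_eq linComp_wf
  length_wd ls_pair hd tl ls_hd ls_tl hd_eq tl_eq a0 a1 dst npc uu ls_a1 ls_dst
  ls_npc selF selF_eq ls_selF isA accF accF_le accF_eq_one ls_accF bd pair_lt)
open Pool.Agent.Helper92.RE

/-- `1` for the instruction `load`. -/
def isL : Option Ins → ℕ
  | some (.load _ _) => 1
  | _ => 0

/-- `1` for the instruction `store`. -/
def isSt : Option Ins → ℕ
  | some (.store _ _) => 1
  | _ => 0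

/-- The code of the cursors. -/
def cO (S : ℕ) : ℕ := (Nat.unpair (vO S)).1

/-- The code of the register which is changed by `store` and of its content. -/
def mO (S : ℕ) : ℕ := (Nat.unpair (vO S)).2

/-- The content of the first register which is read, in the state `S`. -/
def uS (m S : ℕ) (o : Option Ins) : ℕ := getV m (uO S) (a0 o)

/-- The content of the second register, or the letter, in the state `S`, `Z` being the number of the
word which is read. -/
def vS (D : LD) (d K m S Z : ℕ) (o : Option Ins) : ℕ :=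
  ifz (inpL o) (ifz (lt01 (a1 o (uS m S o)) m)
      (getV d (blkV K (Z / 16) (pO S - 1) - 1) (uS m S o % d)) (getV m (uO S) (a1 o (uS m S o))))
    (ifz (inpL o - 1) (D.lt (nO S) (uS m S o) (l3 (Z % 4))) (l3 (Z / 4 % 4)))

/-- The new state. -/
def nxS (D : LD) (d : ℕ) (P : List Ins) (S Z : ℕ) (o : Option Ins) : ℕ :=
  sto (accF P (npc o (pO S - 1) (uS (bd P + 1) S o))) (npc o (pO S - 1) (uS (bd P + 1) S o) + 1)
    (nO S) (setV (bd P + 1) (uO S) (dst o (uS (bd P + 1) S o))
      (valL o (uS (bd P + 1) S o) (vS D d P.length (bd P + 1) S Z o)))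
    (Nat.pair (ifz (isL o) (cO S) (setV P.length (cO S) (pO S - 1) (uS (bd P + 1) S o)))
      (ifz (isSt o) 0
        (Nat.pair (uS (bd P + 1) S o) (vS D d P.length (bd P + 1) S Z o) + 1)))

/-- The new state. -/
def nextF (D : LD) (d : ℕ) (P : List Ins) (x : ℕ) : ℕ :=
  ifz (pO (hd x)) (ifz (l3 (tl x % 4)) (sto (accF P 0) 1 (nO (hd x)) 0 0)
    (sto 0 0 (nO (hd x) + 1) 0 0))
  (selF (fun o x => nxS D d P (hd x) (tl x) o) P (pO (hd x) - 1) x)

/-- The address of the letters. -/
def addrF (D : LD) (P : List Ins) (S : ℕ) : ℕ :=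
  bitsN (ifz (pO S) (nO S) (selF (fun o S => ifz (inpL o) 0 (ifz (inpL o - 1)
    (adr1 D (nO S) (uS (bd P + 1) S o)) (uS (bd P + 1) S o))) P (pO S - 1) S))

/-- The positions of the heads. -/
def posG (d : ℕ) (P : List Ins) (i S : ℕ) : ℕ :=
  ifz (pO S) 0 (selF (fun o S => ifz (isL o * eq01 i (pO S - 1)) (getV P.length (cO S) i)
    (uS (bd P + 1) S o)) P (pO S - 1) S) / d

/-- The positions of the heads. -/
def posF (d : ℕ) (P : List Ins) (x : ℕ) : ℕ := bitsN (posG d P (bvN (hd x)) (tl x))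

/-- The new content of the cell number `z` with the content `C`, if `S` is the new state. -/
def wrG (d S z C : ℕ) : ℕ :=
  ifz (mO S) C (ifz (eq01 z ((Nat.unpair (mO S - 1)).1 / d)) C
    (setV d (C - 1) ((Nat.unpair (mO S - 1)).1 % d) (Nat.unpair (mO S - 1)).2 + 1))

/-- The new contents. -/
def writeF (d x : ℕ) : ℕ := wrG d (hd x) (bvN (hd (tl (tl x)))) (tl (tl (tl x)))

section

variable {α : Type} [Ctx α]

theorem ls_cO {S : α → ℕ} (hS : LS S) : LS (fun a => cO (S a)) := by
  exact LS.unpair1 (ls_vO hS)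

theorem ls_mO {S : α → ℕ} (hS : LS S) : LS (fun a => mO (S a)) := by
  exact LS.unpair2 (ls_vO hS)

theorem ls_uS (m : ℕ) (o : Option Ins) {S : α → ℕ} (hS : LS S) :
    LS (fun a => uS m (S a) o) := ls_getV m (ls_uO hS) (LS.const _)

theorem ls_vS (D : LD) (d K m : ℕ) (o : Option Ins) {S Z : α → ℕ} (hS : LS S) (hZ : LS Z) :
    LS (fun a => vS D d K m (S a) (Z a) o) := by
  have hu := ls_uS m o hS
  have h1 := ls_a1 o hu
  have hp := ls_pO hS
  have h2' : LS (fun a => blkV K (Z a / 16) (pO (S a) - 1)) :=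
    ls_blkV K (LS.div hZ (LS.const 16)) (LS.sub hp (LS.const 1))
  have h2 : LS (fun a => getV d (blkV K (Z a / 16) (pO (S a) - 1) - 1) (uS m (S a) o % d)) :=
    ls_getV d (LS.sub h2' (LS.const 1)) (LS.mod hu (LS.const d))
  have h3 := ls_getV m (ls_uO hS) h1
  have h4 := D.ls_lt' (ls_nO hS) hu (ls_l3 (LS.mod hZ (LS.const 4)))
  have h5 := ls_l3 (LS.mod (LS.div hZ (LS.const 4)) (LS.const 4))
  exact LS.ifz (LS.const _) (LS.ifz (LS.lt01 h1 (LS.const _)) h2 h3)
    (LS.ifz (LS.const _) h4 h5)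

theorem ls_nxS (D : LD) (d : ℕ) (P : List Ins) (o : Option Ins) {S Z : α → ℕ} (hS : LS S)
    (hZ : LS Z) : LS (fun a => nxS D d P (S a) (Z a) o) := by
  have hu := ls_uS (bd P + 1) o hS
  have hv := ls_vS D d P.length (bd P + 1) o hS hZ
  have hp := LS.sub (ls_pO hS) (LS.const 1)
  have h1 := ls_npc o (p := fun a => pO (S a) - 1) hp hu
  have h2 := ls_accF P h1
  have h3 := ls_setV (bd P + 1) (ls_uO hS) (ls_dst o hu) (ls_valL o hu hv)
  have h4 := ls_setV P.length (ls_cO hS) (i := fun a => pO (S a) - 1) hp hu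
  have h5 := LS.add (ls_pair hu hv) (LS.const 1)
  exact ls_sto h2 (LS.add h1 (LS.const 1)) (ls_nO hS) h3
    (ls_pair (LS.ifz (LS.const _) (ls_cO hS) h4) (LS.ifz (LS.const _) (LS.const 0) h5))

end

theorem ls_nextF (D : LD) (d : ℕ) (P : List Ins) : LS (nextF D d P) := by
  have hh := ls_hd
  have ht := ls_tl
  have hp : LS (fun x : ℕ => pO (hd x)) := ls_pO hh
  have hn : LS (fun x : ℕ => nO (hd x)) := ls_nO hh
  have g1 := ls_sto (LS.const (α := ℕ) (accF P 0)) (LS.const 1) hn (LS.const 0) (LS.const 0)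
  have g2 := ls_sto (LS.const (α := ℕ) 0) (LS.const 0) (LS.add hn (LS.const 1)) (LS.const 0)
    (LS.const 0)
  have ht' : LS (fun x : ℕ => tl x) := ht
  have g3 := ls_l3 (LS.mod ht' (LS.const 4))
  exact LS.ifz hp (LS.ifz g3 g1 g2) (ls_selF (fun o => ls_nxS D d P o hh ht) P
    (LS.sub hp (LS.const 1)))

theorem ls_addrF (D : LD) (P : List Ins) : LS (addrF D P) := by
  have hi : LS (fun x : ℕ => x) := by fun_prop
  have hp : LS (fun x : ℕ => pO x) := ls_pO hi
  have hn : LS (fun x : ℕ => nO x) := ls_nO hi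
  refine LS.bitsN (LS.ifz hp hn (ls_selF (fun o => ?_) P (LS.sub hp (LS.const 1))))
  have hu := ls_uS (bd P + 1) o hi
  exact LS.ifz (LS.const _) (LS.const 0) (LS.ifz (LS.const _) (ls_adr1 D hn hu) hu)

theorem ls_posG (d : ℕ) (P : List Ins) : LS (fun z : ℕ × ℕ => posG d P z.1 z.2) := by
  have h1 : LS (fun z : ℕ × ℕ => z.1) := by fun_prop
  have h2 : LS (fun z : ℕ × ℕ => z.2) := by fun_prop
  have hp : LS (fun z : ℕ × ℕ => pO z.2) := ls_pO h2
  have hp1 : LS (fun z : ℕ × ℕ => pO z.2 - 1) := LS.sub hp (LS.const 1)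
  have hs := ls_selF (α := ℕ × ℕ) (G := fun o z => ifz (isL o * eq01 z.1 (pO z.2 - 1))
    (getV P.length (cO z.2) z.1) (uS (bd P + 1) z.2 o)) (fun o => by
      have hu := ls_uS (bd P + 1) o h2
      have hg := ls_getV P.length (ls_cO h2) h1
      exact LS.ifz (LS.mul (LS.const _) (LS.eq01 h1 hp1)) hg hu) P
      (pc := fun z => pO z.2 - 1) hp1
  have e : (fun z : ℕ × ℕ => posG d P z.1 z.2) = fun z => ifz (pO z.2) 0
      (selF (fun o (z : ℕ × ℕ) => ifz (isL o * eq01 z.1 (pO z.2 - 1))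
        (getV P.length (cO z.2) z.1) (uS (bd P + 1) z.2 o)) P (pO z.2 - 1) z) / d := by
    funext z
    unfold posG
    rw [selF_eq, selF_eq]
  rw [e]
  exact LS.div (LS.ifz hp (LS.const 0) hs) (LS.const d)

theorem ls_posF (d : ℕ) (P : List Ins) : LS (posF d P) := by
  have h1 := ls_bvN ls_hd
  exact LS.bitsN (LS.comp (g := fun z : ℕ × ℕ => posG d P z.1 z.2)
    (f := fun x => (bvN (hd x), tl x)) (ls_posG d P) (by
      have ht : LS (fun x : ℕ => tl x) := ls_tl
      fun_prop))

theorem ls_writeF (d : ℕ) : LS (writeF d) := by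
  have hh : LS (fun x : ℕ => hd x) := ls_hd
  have ht : LS (fun x : ℕ => tl x) := ls_tl
  have h2 : LS (fun x : ℕ => tl (tl x)) := LS.comp (g := tl) ls_tl ht
  have h3 : LS (fun x : ℕ => tl (tl (tl x))) := LS.comp (g := tl) ls_tl h2
  have h4 : LS (fun x : ℕ => bvN (hd (tl (tl x)))) := ls_bvN (LS.comp (g := hd) ls_hd h2)
  have hm := ls_mO hh
  have hm0 := LS.sub hm (LS.const 1)
  have hm1 := LS.unpair1 hm0
  have hm2 := LS.unpair2 hm0
  have h5 := ls_setV d (LS.sub h3 (LS.const 1)) (LS.mod hm1 (LS.const d)) hm2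
  exact LS.ifz hm h3 (LS.ifz (LS.eq01 h4 (LS.div hm1 (LS.const d))) h3 (LS.add h5 (LS.const 1)))

/-- The machine which runs the program. -/
noncomputable def mach (D : LD) (d : ℕ) (P : List Ins) : Reader P.length where
  start := wd (sto 0 0 0 0 0)
  addr := wf (addrF D P)
  arr := wf (fun _ => 1)
  pos := wf (posF d P)
  next := wf (nextF D d P)
  write := wf (writeF d)
  addr_lin := linComp_wf (ls_addrF D P)
  arr_lin := linComp_wf (LS.const 1)
  pos_lin := linComp_wf (ls_posF d P)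
  next_lin := linComp_wf (ls_nextF D d P)
  write_lin := linComp_wf (ls_writeF d)

end Pool.Agent.Helper81.RR
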