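import Pool.Agent.Helper81.RR.Final
import Pool.Agent.Helper31.SB.Final

/-!
# Programs of random access machines which load few registers: the simulation
-/

set_option autoImplicit false

namespace Pool.Agent.Helper81.RR

open Pool.Agent.Helper65.BR (SimA)
open Pool.Agent.Helper81.RP (Ins AcceptsAt)
open Pool.Agent.Helper92.RE

/-- **Programs** on the words `F w` and `y`, which load few registers. -/
theorem sim_ram (c : ℕ) {D : LD} {F : List Bool → List Bool} (hD : D.Is F) {b : ℕ}
    (hlen : ∀ w, (F w).length ≤ b * (w.length + 1)) (hle : ∀ w, w.length ≤ (F w).length)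
    {d : ℕ} (hd0 : 0 < d) (P : List Ins) (C : ℝ) :
    SimA c (fun w y => ∃ t, AcceptsAt P (F w) y t) (fun w y => Within P d C (F w) y) :=
  sim_prog c hD hlen hle hd0 P C fun A C => Pool.Agent.Helper31.SB.reader_sim c A C

end Pool.Agent.Helper81.RR
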